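import Mathlib
import Pool.Agent.H242R3.ES.Stmts

set_option autoImplicit false
set_option linter.all false

/-! Task ES-P2: convexity at the ridges. -/

open Finset
open scoped Classical

namespace Pool.Agent.H455R3.ES

open Pool.Agent.H242R3.ES

theorem B_comm {D : ℕ} (x y : LV D) : B x y = B y x := by
  unfold B
  rw [mul_comm (x none)]
  congr 1
  exact Finset.sum_congr rfl (fun i _ => mul_comm _ _)

/-- the Lorentz form as a bilinear map -/
noncomputable def BL (D : ℕ) : LV D →ₗ[ℝ] LV D →ₗ[ℝ] ℝ :=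
  LinearMap.mk₂ ℝ B
    (by
      intro x y z
      simp only [B, Pi.add_apply, add_mul, Finset.sum_add_distrib]
      ring)
    (by
      intro c x y
      simp only [B, Pi.smul_apply, smul_eq_mul, mul_sub, Finset.mul_sum]
      congr 1
      · exact Finset.sum_congr rfl (fun i _ => by ring)
      · ring)
    (by
      intro x y z
      simp only [B, Pi.add_apply, mul_add, Finset.sum_add_distrib]
      ring)
    (by
      intro c x y
      simp only [B, Pi.smul_apply, smul_eq_mul, mul_sub, Finset.mul_sum]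
      congr 1
      · exact Finset.sum_congr rfl (fun i _ => by ring)
      · ring)

theorem BL_apply {D : ℕ} (x y : LV D) : BL D x y = B x y := rfl

/-- vectors orthogonal to a timelike vector are spacelike -/
theorem lorentz {D : ℕ} (t z : LV D) (ht : B t t < 0) (hz : B z t = 0) (hz0 : z ≠ 0) :
    0 < B z z := by
  have hcs := Finset.sum_mul_sq_le_sq_mul_sq Finset.univ (fun i : Fin D => z (some i))
    (fun i : Fin D => t (some i))
  unfold B at ht hz ⊢
  set A : ℝ := ∑ i : Fin D, z (some i) ^ 2 with hA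
  set T : ℝ := ∑ i : Fin D, t (some i) ^ 2 with hT
  have hAz : ∑ i : Fin D, z (some i) * z (some i) = A := by
    rw [hA]; exact Finset.sum_congr rfl (fun i _ => by ring)
  have hTz : ∑ i : Fin D, t (some i) * t (some i) = T := by
    rw [hT]; exact Finset.sum_congr rfl (fun i _ => by ring)
  rw [hTz] at ht
  rw [hAz]
  have hA0 : 0 ≤ A := Finset.sum_nonneg (fun i _ => sq_nonneg _)
  have hT0 : 0 ≤ T := Finset.sum_nonneg (fun i _ => sq_nonneg _)
  have h1 : ∑ i : Fin D, z (some i) * t (some i) = z none * t none := by linarith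
  rw [h1] at hcs
  by_contra hcon
  push Not at hcon
  have hb : 0 < t none * t none := by linarith
  rcases hA0.eq_or_lt with h0 | h0
  · have hz1 : ∀ i : Fin D, z (some i) = 0 := by
      intro i
      have h2 := (Finset.sum_eq_zero_iff_of_nonneg (fun i _ => sq_nonneg (z (some i)))).mp h0.symm
        i (Finset.mem_univ i)
      exact pow_eq_zero_iff (two_ne_zero) |>.mp h2
    have hz2 : z none = 0 := by
      rw [← h0, zero_mul] at hcs
      have h3 : z none * t none = 0 := by
        have := sq_nonneg (z none * t none)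
        have h4 : (z none * t none) ^ 2 = 0 := le_antisymm hcs this
        exact pow_eq_zero_iff (two_ne_zero) |>.mp h4
      rcases mul_eq_zero.mp h3 with h | h
      · exact h
      · rw [h] at hb; simp at hb
    apply hz0
    funext i
    cases i with
    | none => exact hz2
    | some i => exact hz1 i
  · have h2 : A * (t none * t none) ≤ (z none * z none) * (t none * t none) :=
      mul_le_mul_of_nonneg_right (by linarith) hb.le
    have h3 : A * T < A * (t none * t none) := mul_lt_mul_of_pos_left (by linarith) h0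
    have h4 : (z none * t none) ^ 2 = (z none * z none) * (t none * t none) := by ring
    linarith

theorem t : TaskP2 := by
  intro C1 D hD ι _ V h v j o hj ho hoj hnf r l l' hl hl' hll hL hL'
  have sc : SC V := ⟨h.vert, h.span, h.simp⟩
  unfold LK at hL hL'
  rw [Finset.mem_filter] at hL hL'
  obtain ⟨-, hv1, hj1, hc1, hF1, hU1⟩ := hL
  obtain ⟨-, hv2, hj2, hc2, hF2, hU2⟩ := hL'
  set S1 : Set ι := insert v (insert j ((insert l r : Finset ι) : Set ι)) with hS1
  set S2 : Set ι := insert v (insert j ((insert l' r : Finset ι) : Set ι)) with hS2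
  have hB : ∀ S : Set ι, Face V S → S ≠ Set.univ → ∀ i ∈ S, ∀ k ∈ S, i ≠ k →
      B (V i) (V k) = -1 := by
    intro S hS hS' i hi k hk hik
    refine h.edge i k hik (C1 ι (LV D) V sc S {i, k} hS hS' ?_)
    intro x hx
    rcases hx with rfl | hx
    · exact hi
    · rw [Set.mem_singleton_iff] at hx
      rw [hx]; exact hk
  have hcard : r.card + 3 = D := by
    rw [Finset.card_insert_of_notMem hl] at hc1
    omega
  have hn0 : 1 ≤ r.card := by omega
  have hvl : v ≠ l := fun e => hv1 (by rw [e]; exact Finset.mem_insert_self _ _)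
  have hvl' : v ≠ l' := fun e => hv2 (by rw [e]; exact Finset.mem_insert_self _ _)
  have hjl : j ≠ l := fun e => hj1 (by rw [e]; exact Finset.mem_insert_self _ _)
  have hjl' : j ≠ l' := fun e => hj2 (by rw [e]; exact Finset.mem_insert_self _ _)
  have hvr : v ∉ r := fun e => hv1 (Finset.mem_insert_of_mem e)
  have hjr : j ∉ r := fun e => hj1 (Finset.mem_insert_of_mem e)
  have hjv : j ≠ v := hj.1
  have hov : o ≠ v := ho.1
  have m1v : v ∈ S1 := by simp [hS1]
  have m1j : j ∈ S1 := by simp [hS1]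
  have m1l : l ∈ S1 := by simp [hS1]
  have m1r : ∀ i ∈ r, i ∈ S1 := fun i hi => by simp [hS1, hi]
  have m2v : v ∈ S2 := by simp [hS2]
  have m2j : j ∈ S2 := by simp [hS2]
  have m2l : l' ∈ S2 := by simp [hS2]
  have m2r : ∀ i ∈ r, i ∈ S2 := fun i hi => by simp [hS2, hi]
  have n1l' : l' ∉ S1 := by
    simp only [hS1, Set.mem_insert_iff, Finset.coe_insert, Finset.mem_coe, not_or]
    exact ⟨hvl'.symm, hjl'.symm, hll.symm, hl'⟩
  have n2l : l ∉ S2 := by
    simp only [hS2, Set.mem_insert_iff, Finset.coe_insert, Finset.mem_coe, not_or]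
    exact ⟨hvl.symm, hjl.symm, hll, hl⟩
  -- the vectors `X`
  let X : ι → LV D := fun i => V v + V i
  have hX : ∀ i (x : LV D), B (X i) x = B (V v) x + B (V i) x := by
    intro i x
    rw [← BL_apply, ← BL_apply, ← BL_apply, map_add]; rfl
  have hX' : ∀ i (x : LV D), B x (X i) = B x (V v) + B x (V i) := by
    intro i x
    rw [← BL_apply, ← BL_apply, ← BL_apply, map_add]
  have bvv : B (V v) (V v) = 1 := h.norm v
  have bsame : ∀ i, i ≠ v → B (V v) (V i) = -1 → B (X i) (X i) = 0 := by
    intro i hi hb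
    rw [hX, hX', hX', bvv, hb, B_comm (V i) (V v), hb, h.norm i]; norm_num
  have bv1 : ∀ i ∈ S1, i ≠ v → B (V v) (V i) = -1 := fun i hi hiv =>
    hB S1 hF1 hU1 v m1v i hi (Ne.symm hiv)
  have bv2 : ∀ i ∈ S2, i ≠ v → B (V v) (V i) = -1 := fun i hi hiv =>
    hB S2 hF2 hU2 v m2v i hi (Ne.symm hiv)
  have bxx : ∀ S : Set ι, Face V S → S ≠ Set.univ → v ∈ S → ∀ i ∈ S, ∀ k ∈ S, i ≠ v → k ≠ v →
      i ≠ k → B (X i) (X k) = -2 := by
    intro S hS hS' hvS i hi k hk hiv hkv hik
    rw [hX, hX', hX', bvv, hB S hS hS' v hvS k hk (Ne.symm hkv), hB S hS hS' i hi v hvS hiv,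
      hB S hS hS' i hi k hk hik]
    norm_num
  have bxv : ∀ i, B (V v) (V i) = -1 → B (X i) (V v) = 0 := by
    intro i hi
    rw [hX, bvv, B_comm (V i), hi]; norm_num
  have hrv : ∀ i ∈ r, i ≠ v := fun i hi e => hvr (e ▸ hi)
  have hrj : ∀ i ∈ r, i ≠ j := fun i hi e => hjr (e ▸ hi)
  have hrl : ∀ i ∈ r, i ≠ l := fun i hi e => hl (e ▸ hi)
  have hrl' : ∀ i ∈ r, i ≠ l' := fun i hi e => hl' (e ▸ hi)
  set n : ℝ := (r.card : ℝ) with hn
  have hn1 : (1 : ℝ) ≤ n := by rw [hn]; exact_mod_cast hn0
  have hnn : n ≠ 0 := by positivity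
  let Z : LV D := (2 / n) • (X j + ∑ i ∈ r, X i) - X l - X l'
  have hZ : ∀ x : LV D, B Z x = 2 / n * (B (X j) x + ∑ i ∈ r, B (X i) x) - B (X l) x - B (X l') x := by
    intro x
    have h1 : BL D Z x = 2 / n * (BL D (X j) x + ∑ i ∈ r, BL D (X i) x) - BL D (X l) x
        - BL D (X l') x := by
      simp only [Z, map_sub, map_smul, map_add, map_sum, LinearMap.sub_apply, LinearMap.smul_apply,
        LinearMap.add_apply, LinearMap.sum_apply, smul_eq_mul]
    simpa only [BL_apply] using h1
  have hZ' : ∀ x : LV D, B x Z = 2 / n * (B x (X j) + ∑ i ∈ r, B x (X i)) - B x (X l) - B x (X l') := by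
    intro x
    rw [B_comm, hZ x, B_comm x (X j), B_comm x (X l), B_comm x (X l')]
    congr 3
    congr 1
    exact Finset.sum_congr rfl (fun i _ => B_comm _ _)
  -- values
  have sumr : ∀ k, (∀ i ∈ r, B (X i) (X k) = -2) → ∑ i ∈ r, B (X i) (X k) = -2 * n := by
    intro k hk
    rw [Finset.sum_congr rfl hk, Finset.sum_const, nsmul_eq_mul]; ring
  have zv : B Z (V v) = 0 := by
    rw [hZ, bxv j (bv1 j m1j hjv), bxv l (bv1 l m1l hvl.symm), bxv l' (bv2 l' m2l hvl'.symm),
      Finset.sum_eq_zero (fun i hi => bxv i (bv1 i (m1r i hi) (hrv i hi)))]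
    ring
  have zj : B Z (X j) = 0 := by
    rw [hZ, bsame j hjv (bv1 j m1j hjv),
      sumr j (fun i hi => bxx S1 hF1 hU1 m1v i (m1r i hi) j m1j (hrv i hi) hjv (hrj i hi)),
      bxx S1 hF1 hU1 m1v l m1l j m1j hvl.symm hjv hjl.symm,
      bxx S2 hF2 hU2 m2v l' m2l j m2j hvl'.symm hjv hjl'.symm]
    field_simp; ring
  have zr : ∀ k ∈ r, B Z (X k) = 0 := by
    intro k hk
    have hsum : ∑ i ∈ r, B (X i) (X k) = -2 * (n - 1) := by
      rw [← Finset.add_sum_erase r _ hk, bsame k (hrv k hk) (bv1 k (m1r k hk) (hrv k hk)), zero_add,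
        Finset.sum_congr rfl (fun i hi => bxx S1 hF1 hU1 m1v i (m1r i (Finset.mem_of_mem_erase hi)) k
          (m1r k hk) (hrv i (Finset.mem_of_mem_erase hi)) (hrv k hk) (Finset.ne_of_mem_erase hi)),
        Finset.sum_const, Finset.card_erase_of_mem hk, nsmul_eq_mul, Nat.cast_sub hn0]
      push_cast
      ring
    rw [hZ, hsum, bxx S1 hF1 hU1 m1v j m1j k (m1r k hk) hjv (hrv k hk) (hrj k hk).symm,
      bxx S1 hF1 hU1 m1v l m1l k (m1r k hk) hvl.symm (hrv k hk) (hrl k hk).symm,
      bxx S2 hF2 hU2 m2v l' m2l k (m2r k hk) hvl'.symm (hrv k hk) (hrl' k hk).symm]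
    field_simp; ring
  set p : ℝ := - B (X l) (X l') with hp
  have zl : B Z (X l) = p - 4 * (n + 1) / n := by
    rw [hZ, bsame l hvl.symm (bv1 l m1l hvl.symm),
      sumr l (fun i hi => bxx S1 hF1 hU1 m1v i (m1r i hi) l m1l (hrv i hi) hvl.symm (hrl i hi)),
      bxx S1 hF1 hU1 m1v j m1j l m1l hjv hvl.symm hjl, B_comm (X l') (X l), hp]
    field_simp; ring
  have zl' : B Z (X l') = p - 4 * (n + 1) / n := by
    rw [hZ, bsame l' hvl'.symm (bv2 l' m2l hvl'.symm),
      sumr l' (fun i hi => bxx S2 hF2 hU2 m2v i (m2r i hi) l' m2l (hrv i hi) hvl'.symm (hrl' i hi)),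
      bxx S2 hF2 hU2 m2v j m2j l' m2l hjv hvl'.symm hjl', hp]
    field_simp; ring
  have zz : B Z Z = 2 * (4 * (n + 1) / n - p) := by
    rw [hZ' Z, zj, zl, zl', Finset.sum_eq_zero zr]
    ring
  -- facet functionals
  obtain ⟨f, hf0, hf⟩ := hF1
  obtain ⟨f', hf0', hf'⟩ := hF2
  have fpos : 0 < f (V l') := lt_of_le_of_ne (hf0 l') (fun e => n1l' ((hf l').mpr e.symm))
  have fpos' : 0 < f' (V l) := lt_of_le_of_ne (hf0' l) (fun e => n2l ((hf' l).mpr e.symm))
  have fv : f (V v) = 0 := (hf v).mp m1v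
  have fj : f (V j) = 0 := (hf j).mp m1j
  have fl : f (V l) = 0 := (hf l).mp m1l
  have fr : ∀ i ∈ r, f (V i) = 0 := fun i hi => (hf i).mp (m1r i hi)
  have hZne : Z ≠ 0 := by
    intro h0
    have h1 : f Z = 0 := by rw [h0, map_zero]
    have h2 : ∀ i, f (X i) = f (V i) := fun i => by
      show f (V v + V i) = _
      rw [map_add, fv, zero_add]
    simp only [Z, map_sub, map_smul, map_add, map_sum, h2, fj, fl] at h1
    rw [Finset.sum_eq_zero fr] at h1
    simp only [smul_eq_mul] at h1
    linarith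
  -- a timelike vector
  obtain ⟨i0, hi0⟩ := Finset.card_pos.mp (by omega : 0 < r.card)
  have hzz : 0 < B Z Z := by
    refine lorentz (X j + X i0) Z ?_ ?_ hZne
    · have h1 : B (X j + X i0) (X j + X i0) =
          B (X j) (X j) + B (X j) (X i0) + (B (X i0) (X j) + B (X i0) (X i0)) := by
        simp only [← BL_apply, map_add, LinearMap.add_apply]
        ring
      rw [h1, bsame j hjv (bv1 j m1j hjv), bsame i0 (hrv i0 hi0) (bv1 i0 (m1r i0 hi0) (hrv i0 hi0)),
        bxx S1 ⟨f, hf0, hf⟩ hU1 m1v j m1j i0 (m1r i0 hi0) hjv (hrv i0 hi0) (hrj i0 hi0).symm,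
        bxx S1 ⟨f, hf0, hf⟩ hU1 m1v i0 (m1r i0 hi0) j m1j (hrv i0 hi0) hjv (hrj i0 hi0)]
      norm_num
    · have h1 : B Z (X j + X i0) = B Z (X j) + B Z (X i0) := by
        simp only [← BL_apply, map_add]
      rw [h1, zj, zr i0 hi0, add_zero]
  have hq : 0 < 4 * (n + 1) / n - p := by
    rw [zz] at hzz; linarith
  -- the functional `rho`
  have rl : - B Z (V l) = 4 * (n + 1) / n - p := by
    have h1 := hX' l Z
    rw [zl, zv] at h1; linarith
  have rl' : - B Z (V l') = 4 * (n + 1) / n - p := by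
    have h1 := hX' l' Z
    rw [zl', zv] at h1; linarith
  have rj : B Z (V j) = 0 := by
    have h1 := hX' j Z
    rw [zj, zv] at h1; linarith
  have rr : ∀ i ∈ r, B Z (V i) = 0 := by
    intro i hi
    have h1 := hX' i Z
    rw [zr i hi, zv] at h1; linarith
  -- the span of the first facet is the kernel of `f`
  have hLI := h.simp S1 ⟨f, hf0, hf⟩ hU1
  have hS1fin : Fintype S1 := Fintype.ofFinite _
  have hS1card : Fintype.card S1 = D := by
    have h1 : S1 = ((insert v (insert j (insert l r)) : Finset ι) : Set ι) := by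
      simp [hS1]
    have h2 : Fintype.card S1 = S1.ncard := by
      rw [← Nat.card_eq_fintype_card]; rfl
    rw [h2, h1, Set.ncard_coe_finset, Finset.card_insert_of_notMem, Finset.card_insert_of_notMem hj1,
      Finset.card_insert_of_notMem hl]
    · omega
    · simp only [Finset.mem_insert, not_or]
      exact ⟨hjv.symm, hvl, hvr⟩
  have hspan : Submodule.span ℝ (Set.range fun i : S1 => V i) = LinearMap.ker f := by
    apply Submodule.eq_of_le_of_finrank_eq
    · rw [Submodule.span_le]
      rintro _ ⟨i, rfl⟩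
      exact (hf i.1).mp i.2
    · rw [finrank_span_eq_card hLI, hS1card]
      have h1 := LinearMap.finrank_range_add_finrank_ker f
      have h2 : Module.finrank ℝ (LinearMap.range f) = 1 := by
        have h3 : LinearMap.range f = ⊤ := by
          rw [LinearMap.range_eq_top]
          intro y
          exact ⟨(y / f (V l')) • V l', by
            rw [map_smul, smul_eq_mul, div_mul_cancel₀ _ fpos.ne']⟩
        rw [h3, finrank_top, Module.finrank_self]
      rw [h2, Module.finrank_fintype_fun_eq_card, Fintype.card_option, Fintype.card_fin] at h1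
      omega
  -- the combination
  let g : LV D →ₗ[ℝ] ℝ := -(BL D Z) - ((4 * (n + 1) / n - p) / f' (V l)) • f'
  have hgker : ∀ x, f x = 0 → g x = 0 := by
    intro x hx
    have h1 : x ∈ Submodule.span ℝ (Set.range fun i : S1 => V i) := by
      rw [hspan]; exact hx
    have h2 : Submodule.span ℝ (Set.range fun i : S1 => V i) ≤ LinearMap.ker g := by
      rw [Submodule.span_le]
      rintro _ ⟨⟨i, hi⟩, rfl⟩
      show g (V i) = 0
      have h3 : g (V i) = - B Z (V i) - ((4 * (n + 1) / n - p) / f' (V l)) * f' (V i) := rfl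
      rw [h3]
      simp only [hS1, Set.mem_insert_iff, Finset.coe_insert, Finset.mem_coe] at hi
      rcases hi with rfl | rfl | rfl | hi
      · rw [zv, (hf' _).mp m2v]; ring
      · rw [rj, (hf' _).mp m2j]; ring
      · rw [rl, div_mul_cancel₀ _ fpos'.ne']; ring
      · rw [rr i hi, (hf' _).mp (m2r i hi)]; ring
    exact h2 h1
  have hg : ∀ x, g x = (f x / f (V l')) * g (V l') := by
    intro x
    have h1 : f (x - (f x / f (V l')) • V l') = 0 := by
      rw [map_sub, map_smul, smul_eq_mul, div_mul_cancel₀ _ fpos.ne', sub_self]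
    have h2 := hgker _ h1
    rw [map_sub, map_smul, smul_eq_mul, sub_eq_zero] at h2
    exact h2
  have hgl' : g (V l') = 4 * (n + 1) / n - p := by
    have h3 : g (V l') = - B Z (V l') - ((4 * (n + 1) / n - p) / f' (V l)) * f' (V l') := rfl
    rw [h3, rl', (hf' _).mp m2l]; ring
  have hrho : - B Z (V o) = (4 * (n + 1) / n - p) / f' (V l) * f' (V o) +
      (4 * (n + 1) / n - p) / f (V l') * f (V o) := by
    have h1 := hg (V o)
    have h3 : g (V o) = - B Z (V o) - ((4 * (n + 1) / n - p) / f' (V l)) * f' (V o) := rfl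
    rw [h3, hgl'] at h1
    have h4 : f (V o) / f (V l') * (4 * (n + 1) / n - p) =
      (4 * (n + 1) / n - p) / f (V l') * f (V o) := by ring
    rw [h4] at h1
    linarith
  have hoS1 : o ∉ S1 := by
    intro hoS
    apply hnf
    refine C1 ι (LV D) V sc S1 {v, j, o} ⟨f, hf0, hf⟩ hU1 ?_
    intro x hx
    simp only [Set.mem_insert_iff, Set.mem_singleton_iff] at hx
    rcases hx with rfl | rfl | rfl
    · exact m1v
    · exact m1j
    · exact hoS
  have fo : 0 < f (V o) := lt_of_le_of_ne (hf0 o) (fun e => hoS1 ((hf o).mpr e.symm))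
  have hpos : 0 < - B Z (V o) := by
    rw [hrho]
    have h1 : 0 ≤ (4 * (n + 1) / n - p) / f' (V l) * f' (V o) :=
      mul_nonneg (div_nonneg hq.le fpos'.le) (hf0' o)
    have h2 : 0 < (4 * (n + 1) / n - p) / f (V l') * f (V o) := mul_pos (div_pos hq fpos) fo
    linarith
  -- conclusion
  have bvo : B (V v) (V o) = -1 := h.edge v o hov.symm ho.2
  have hXo : ∀ i, B (X i) (V o) = - cc V o i := by
    intro i
    rw [hX, bvo]
    unfold cc
    ring
  rw [hZ (V o), hXo, hXo, hXo, Finset.sum_congr rfl (fun i _ => hXo i), Finset.sum_neg_distrib] at hpos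
  have hfin : -(2 / n * (-cc V o j + -∑ i ∈ r, cc V o i) - -cc V o l - -cc V o l') =
      2 / n * (cc V o j + ∑ i ∈ r, cc V o i) - (cc V o l + cc V o l') := by ring
  rw [hfin] at hpos
  linarith

end Pool.Agent.H455R3.ES
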